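import Mathlib

/-!
# Every rotor in a regular triangular prism is a ball

Let `T` be an equilateral triangle in the plane `z = 0` of `ℝ³` and `Π = T × ℝ`. A convex body `K`
is a rotor in `Π` if for every rotation `ρ ∈ SO(3)` some translate of `ρ K` lies in `Π` and meets the
three faces of `Π`. We show that the rotors are exactly the balls whose radius is the inradius of
`T`; this answers the question of Goldberg whether there is a non-spherical rotor in the negative.

Idea of the proof. If `K` is a rotor with support function `h` then `f(u) = h(u) - r |u|` satisfies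
`f(u) + f(v) + f(w) = 0` for all unit vectors with `u + v + w = 0`. The average of `f` over the
rotations about an axis `n` has the same property and depends only on the coordinate `z` along the
axis, so that the Cauchy equation `p(x) + p(y) + p(-x-y) = 0` holds where `x² + xy + y² ≤ 3/4`. Hence
this average is `z f(n)`, and integrating against `z` over the unit ball gives `f(n) = ⟨a, n⟩` for a
vector `a` that does not depend on `n`. So `h(u) = r |u| + ⟨a, u⟩` and `K` is a ball.
-/

set_option autoImplicit false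

namespace Pool.Agent.Results.MP_c2e62a_gt.PrismRotor

open MeasureTheory Set Filter Topology
open scoped RealInnerProductSpace

/-- Euclidean three-space. -/
abbrev E : Type := EuclideanSpace ℝ (Fin 3)

/-- The vertical unit vector `(0, 0, 1)`. -/
noncomputable def e3 : E := !₂[0, 0, 1]

/-- The infinite prism over the triangle with vertices `a`, `b`, `c` (of the plane `z = 0`). -/
def prism (a b c : E) : Set E := {x | ∃ y ∈ convexHull ℝ {a, b, c}, ∃ z : ℝ, x = y + z • e3}

/-- The face of the prism over the edge with end points `a`, `b`. -/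
def face (a b : E) : Set E := {x | ∃ y ∈ segment ℝ a b, ∃ z : ℝ, x = y + z • e3}

/-- A convex body: a compact convex set with nonempty interior. -/
structure IsConvexBody (K : Set E) : Prop where
  convex : Convex ℝ K
  compact : IsCompact K
  interior_nonempty : (interior K).Nonempty

/-- The linear isometry `ρ` of `ℝ³` is a rotation, that is, `ρ ∈ SO(3)`. -/
def IsRotation (ρ : E ≃ₗᵢ[ℝ] E) : Prop := LinearMap.det (ρ.toLinearEquiv : E →ₗ[ℝ] E) = 1

/-- The set `ρ K + t`. -/
def displace (ρ : E ≃ₗᵢ[ℝ] E) (t : E) (K : Set E) : Set E := (fun x => ρ x + t) '' K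

/-- `K` is a rotor in the prism over the triangle with vertices `a`, `b`, `c`: for every rotation
`ρ ∈ SO(3)` some translate of `ρ K` lies in the prism and meets the three faces. -/
def IsRotor (a b c : E) (K : Set E) : Prop :=
  ∀ ρ : E ≃ₗᵢ[ℝ] E, IsRotation ρ → ∃ t : E, displace ρ t K ⊆ prism a b c ∧
    (displace ρ t K ∩ face a b).Nonempty ∧ (displace ρ t K ∩ face b c).Nonempty ∧
    (displace ρ t K ∩ face c a).Nonempty

/-- `a`, `b`, `c` are the vertices of an equilateral triangle with side `s > 0` in the plane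
`z = 0`. -/
structure IsHorizontalEquilateral (a b c : E) (s : ℝ) : Prop where
  pos : 0 < s
  ab : dist a b = s
  bc : dist b c = s
  ca : dist c a = s
  ha : a 2 = 0
  hb : b 2 = 0
  hc : c 2 = 0

/-- rotation about the vertical axis -/
noncomputable def rotLin (t : ℝ) : E →ₗ[ℝ] E where
  toFun x := !₂[Real.cos t * x 0 - Real.sin t * x 1, Real.sin t * x 0 + Real.cos t * x 1, x 2]
  map_add' x y := by
    ext i
    fin_cases i <;> simp <;> ring
  map_smul' c x := by
    ext i
    fin_cases i <;> simp <;> ring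

lemma rotLin_norm (t : ℝ) (x : E) : ‖rotLin t x‖ = ‖x‖ := by
  have h : ‖rotLin t x‖ ^ 2 = ‖x‖ ^ 2 := by
    rw [EuclideanSpace.real_norm_sq_eq, EuclideanSpace.real_norm_sq_eq]
    simp only [Fin.sum_univ_three, rotLin, LinearMap.coe_mk, AddHom.coe_mk]
    simp
    have := Real.sin_sq_add_cos_sq t
    linear_combination (x 0 ^ 2 + x 1 ^ 2) * this
  exact (sq_eq_sq₀ (norm_nonneg _) (norm_nonneg _)).1 h

noncomputable def rot (t : ℝ) : E ≃ₗᵢ[ℝ] E :=
  LinearIsometry.toLinearIsometryEquiv ⟨rotLin t, rotLin_norm t⟩ rfl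

lemma rot_apply (t : ℝ) (x : E) : rot t x =
    !₂[Real.cos t * x 0 - Real.sin t * x 1, Real.sin t * x 0 + Real.cos t * x 1, x 2] := rfl

lemma norm_sq3 (x : E) : ‖x‖ ^ 2 = x 0 ^ 2 + x 1 ^ 2 + x 2 ^ 2 := by
  rw [EuclideanSpace.real_norm_sq_eq, Fin.sum_univ_three]

lemma inner3 (x y : E) : inner ℝ x y = x 0 * y 0 + x 1 * y 1 + x 2 * y 2 := by
  simp [PiLp.inner_apply, Fin.sum_univ_three]
  ring

/-- local Cauchy equation -/
lemma cauchy_local (p : ℝ → ℝ) (hp : Continuous p)
    (h : ∀ x y : ℝ, |x| < 1 → x ^ 2 + x * y + y ^ 2 ≤ 3 / 4 → p x + p y + p (-x - y) = 0)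
    (z : ℝ) (hz : |z| ≤ 1) : p z = z * p 1 := by
  have h0 : p 0 = 0 := by
    have := h 0 0 (by simp) (by norm_num)
    simp at this
    linarith
  have hodd : ∀ x : ℝ, |x| ≤ 1 / 2 → p (-x) = -p x := by
    intro x hx
    have h1 : x ^ 2 ≤ 1 / 4 := by
      have := sq_abs x
      nlinarith [abs_nonneg x]
    have := h x (-x) (by linarith) (by nlinarith)
    simp only [sub_neg_eq_add, neg_add_cancel] at this
    linarith
  have hadd : ∀ x y : ℝ, 0 ≤ x → 0 ≤ y → x + y ≤ 1 / 2 → p (x + y) = p x + p y := by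
    intro x y hx hy hxy
    have := h x y (by rw [abs_of_nonneg hx]; linarith) (by nlinarith)
    have h2 := hodd (x + y) (by rw [abs_of_nonneg (by linarith)]; exact hxy)
    rw [show -x - y = -(x + y) by ring] at this
    linarith
  have hnat : ∀ (n : ℕ), 0 < n → ∀ k : ℕ, k ≤ n → p (k / (2 * n)) = k * p (1 / (2 * n)) := by
    intro n hn k
    have hn' : (0 : ℝ) < n := by exact_mod_cast hn
    induction k with
    | zero => intro _; simp [h0]
    | succ k ih =>
      intro hk
      have hk' : (k : ℝ) + 1 ≤ n := by exact_mod_cast hk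
      have e : ((k + 1 : ℕ) : ℝ) / (2 * n) = k / (2 * n) + 1 / (2 * n) := by
        push_cast; ring
      rw [e, hadd _ _ (by positivity) (by positivity), ih (by omega)]
      · push_cast; ring
      · rw [← add_div, div_le_iff₀ (by positivity)]
        linarith
  have hrat : ∀ (n : ℕ), 0 < n → ∀ k : ℕ, k ≤ n → p (k / (2 * n)) = (k / n) * p (1 / 2) := by
    intro n hn k hk
    have hn' : (0 : ℝ) < n := by exact_mod_cast hn
    have h1 := hnat n hn n le_rfl
    have e : (n : ℝ) / (2 * n) = 1 / 2 := by field_simp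
    rw [e] at h1
    rw [hnat n hn k hk, h1]
    field_simp
  have hhalf : ∀ x : ℝ, 0 ≤ x → x ≤ 1 / 2 → p x = 2 * x * p (1 / 2) := by
    intro x hx0 hx1
    have ht : Tendsto (fun n : ℕ => ((⌊2 * x * n⌋₊ : ℝ) / n)) atTop (𝓝 (2 * x)) :=
      (tendsto_nat_floor_mul_div_atTop (by linarith)).comp tendsto_natCast_atTop_atTop
    have ht2 : Tendsto (fun n : ℕ => p ((⌊2 * x * n⌋₊ : ℝ) / (2 * n))) atTop (𝓝 (p x)) := by
      have e : Tendsto (fun n : ℕ => ((⌊2 * x * n⌋₊ : ℝ) / (2 * n))) atTop (𝓝 x) := by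
        have := ht.div_const 2
        rw [show 2 * x / 2 = x by ring] at this
        refine this.congr (fun n => ?_)
        rw [div_div, mul_comm (n : ℝ) 2]
      exact (hp.tendsto x).comp e
    have ht3 : Tendsto (fun n : ℕ => ((⌊2 * x * n⌋₊ : ℝ) / n) * p (1 / 2)) atTop
        (𝓝 (2 * x * p (1 / 2))) := ht.mul_const _
    refine tendsto_nhds_unique ht2 (ht3.congr' ?_)
    filter_upwards [eventually_gt_atTop 0] with n hn
    have hn' : (0 : ℝ) < n := by exact_mod_cast hn
    rw [hrat n hn]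
    have : (⌊2 * x * n⌋₊ : ℝ) ≤ n := by
      refine (Nat.floor_le (by positivity)).trans ?_
      nlinarith
    exact_mod_cast this
  have hall : ∀ x : ℝ, |x| ≤ 1 / 2 → p x = 2 * x * p (1 / 2) := by
    intro x hx
    rcases le_total 0 x with h1 | h1
    · rw [abs_of_nonneg h1] at hx
      exact hhalf x h1 hx
    · rw [abs_of_nonpos h1] at hx
      have := hhalf (-x) (by linarith) hx
      have h2 := hodd (-x) (by rw [abs_of_nonneg (by linarith)]; exact hx)
      rw [neg_neg] at h2
      rw [h2, this]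
      ring
  have hdouble : ∀ z : ℝ, |z| ≤ 1 → p z = -2 * p (-z / 2) := by
    intro z hz
    have hz2 : z ^ 2 ≤ 1 := by
      have := sq_abs z
      nlinarith [abs_nonneg z]
    have := h (-z / 2) (-z / 2) (by rw [abs_div, abs_neg, abs_two]; linarith) (by nlinarith)
    rw [show -(-z / 2) - (-z / 2) = z by ring] at this
    linarith
  have h1 : p 1 = 2 * p (1 / 2) := by
    have := hdouble 1 (by simp)
    have h2 := hodd (1 / 2) (by rw [abs_of_nonneg (by norm_num)])
    rw [show -(1 : ℝ) / 2 = -(1 / 2) by ring, h2] at this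
    linarith
  rw [hdouble z hz, hall (-z / 2) (by rw [abs_div, abs_neg, abs_two]; linarith), h1]
  ring

/-- `f u + f v + f w = 0` for all unit vectors with `u + v + w = 0`. -/
def Trip (f : E → ℝ) : Prop :=
  ∀ u v w : E, ‖u‖ = 1 → ‖v‖ = 1 → ‖w‖ = 1 → u + v + w = 0 → f u + f v + f w = 0

/-- positively homogeneous of degree one -/
def Hom1 (f : E → ℝ) : Prop := ∀ (r : ℝ) (x : E), 0 ≤ r → f (r • x) = r * f x

lemma exists_rot (u : E) (hu : ‖u‖ = 1) : ∃ s : ℝ, rot s !₂[√(1 - u 2 ^ 2), 0, u 2] = u := by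
  have h1 := norm_sq3 u
  rw [hu] at h1
  refine ⟨Complex.arg ⟨u 0, u 1⟩, ?_⟩
  have hn : ‖(⟨u 0, u 1⟩ : ℂ)‖ = √(1 - u 2 ^ 2) := by
    rw [Complex.norm_def, Complex.normSq_mk]
    congr 1
    nlinarith
  have hc := Complex.norm_mul_cos_arg ⟨u 0, u 1⟩
  have hs := Complex.norm_mul_sin_arg ⟨u 0, u 1⟩
  rw [hn] at hc hs
  simp only at hc hs
  ext i
  fin_cases i
  · simp [rot_apply]; rw [mul_comm]; exact hc
  · simp [rot_apply]; rw [mul_comm]; exact hs
  · simp [rot_apply]

lemma zonal (g : E → ℝ) (hc : Continuous g) (hh : Hom1 g) (ht : Trip g)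
    (hr : ∀ (s : ℝ) (x : E), g (rot s x) = g x) (x : E) : g x = x 2 * g e3 := by
  set p : ℝ → ℝ := fun z => g !₂[√(1 - z ^ 2), 0, z] with hp
  have hpc : Continuous p := by
    refine hc.comp ((PiLp.continuous_toLp 2 _).comp (continuous_pi fun i => ?_))
    fin_cases i
    · exact (continuous_const.sub (continuous_pow 2)).sqrt
    · exact continuous_const
    · exact continuous_id
  have hpu : ∀ u : E, ‖u‖ = 1 → g u = p (u 2) := by
    intro u hu
    obtain ⟨s, hs⟩ := exists_rot u hu
    rw [← hs, hr]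
    simp [hp, rot_apply]
  have hle : ∀ u : E, ‖u‖ = 1 → |u 2| ≤ 1 := by
    intro u hu
    have h1 := norm_sq3 u
    rw [hu] at h1
    rw [← sq_le_one_iff_abs_le_one]
    nlinarith [sq_nonneg (u 0), sq_nonneg (u 1)]
  have hcau : ∀ z : ℝ, |z| ≤ 1 → p z = z * p 1 := by
    refine cauchy_local p hpc ?_
    intro x y hx hxy
    have hx1 : x ^ 2 < 1 := by
      have := sq_abs x
      nlinarith [abs_nonneg x]
    have hx2 : 0 < 1 - x ^ 2 := by linarith
    have hsq : √(1 - x ^ 2) ^ 2 = 1 - x ^ 2 := Real.sq_sqrt hx2.le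
    have hs0 : 0 < √(1 - x ^ 2) := Real.sqrt_pos.2 hx2
    set s := √(1 - x ^ 2) with hs
    set α := (-1 / 2 - x * y) / s with hα
    have hαs : α * s = -1 / 2 - x * y := by rw [hα]; field_simp
    have hβ : 0 ≤ 1 - y ^ 2 - α ^ 2 := by
      have : 0 ≤ (1 - y ^ 2 - α ^ 2) * s ^ 2 := by
        have e : (1 - y ^ 2 - α ^ 2) * s ^ 2 = (1 - y ^ 2) * (1 - x ^ 2) - (α * s) ^ 2 := by
          rw [← hsq]; ring
        rw [e, hαs]
        nlinarith
      exact nonneg_of_mul_nonneg_left this (by positivity)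
    set β := √(1 - y ^ 2 - α ^ 2) with hβd
    have hβsq : β ^ 2 = 1 - y ^ 2 - α ^ 2 := Real.sq_sqrt hβ
    set u : E := !₂[s, 0, x] with hu
    set v : E := !₂[α, β, y] with hv
    have hun : ‖u‖ = 1 := by
      have : ‖u‖ ^ 2 = 1 := by
        rw [norm_sq3]; simp [hu]; linarith
      exact (pow_eq_one_iff_of_nonneg (norm_nonneg _) two_ne_zero).1 this
    have hvn : ‖v‖ = 1 := by
      have : ‖v‖ ^ 2 = 1 := by
        rw [norm_sq3]; simp [hv]; linarith
      exact (pow_eq_one_iff_of_nonneg (norm_nonneg _) two_ne_zero).1 this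
    have hwn : ‖-u - v‖ = 1 := by
      have : ‖-u - v‖ ^ 2 = 1 := by
        rw [norm_sq3]; simp [hu, hv]; nlinarith
      exact (pow_eq_one_iff_of_nonneg (norm_nonneg _) two_ne_zero).1 this
    have h := ht u v (-u - v) hun hvn hwn (by abel)
    rw [hpu u hun, hpu v hvn, hpu _ hwn] at h
    simpa [hu, hv] using h
  have he3 : g e3 = p 1 := by
    simp [hp, e3]
  rcases eq_or_ne x 0 with rfl | hx
  · have := hh 0 0 le_rfl
    simp at this
    simp [this]
  · have hxn : 0 < ‖x‖ := norm_pos_iff.2 hx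
    have hxu : ‖(‖x‖⁻¹ • x)‖ = 1 := by
      rw [norm_smul, norm_inv, norm_norm, inv_mul_cancel₀ hxn.ne']
    have h1 := hpu _ hxu
    rw [hcau _ (hle _ hxu)] at h1
    have h2 := hh ‖x‖ (‖x‖⁻¹ • x) hxn.le
    rw [smul_smul, mul_inv_cancel₀ hxn.ne', one_smul, h1] at h2
    rw [h2, he3]
    simp
    field_simp

lemma continuous_coord (i : Fin 3) : Continuous (fun q : ℝ × E => q.2 i) :=
  (EuclideanSpace.proj i).continuous.comp continuous_snd

lemma continuous_rot : Continuous (fun q : ℝ × E => rot q.1 q.2) := by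
  have h0 := continuous_coord 0
  have h1 := continuous_coord 1
  have h2 := continuous_coord 2
  have hc : Continuous (fun q : ℝ × E => Real.cos q.1) := Real.continuous_cos.comp continuous_fst
  have hs : Continuous (fun q : ℝ × E => Real.sin q.1) := Real.continuous_sin.comp continuous_fst
  refine (PiLp.continuous_toLp 2 _).comp (continuous_pi fun i => ?_)
  fin_cases i
  · exact (hc.mul h0).sub (hs.mul h1)
  · exact (hs.mul h0).add (hc.mul h1)
  · exact h2

/-- average over the rotations about the vertical axis -/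
noncomputable def avg (f : E → ℝ) (x : E) : ℝ := ∫ t in (0 : ℝ)..(2 * Real.pi), f (rot t x)

lemma avg_eq (f : E → ℝ) (hc : Continuous f) (hh : Hom1 f) (ht : Trip f) (x : E) :
    avg f x = x 2 * (2 * Real.pi * f e3) := by
  have hcr : ∀ x : E, Continuous (fun t : ℝ => f (rot t x)) := by
    intro x
    have h1 : Continuous (fun t : ℝ => (t, x)) := continuous_id.prodMk continuous_const
    have h2 : Continuous (fun t : ℝ => rot t x) :=
      Continuous.comp (g := fun q : ℝ × E => rot q.1 q.2) (f := fun t : ℝ => (t, x))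
        continuous_rot h1
    exact Continuous.comp (g := f) (f := fun t : ℝ => rot t x) hc h2
  have h1 : avg f e3 = 2 * Real.pi * f e3 := by
    have : ∀ t, rot t e3 = e3 := by
      intro t
      ext i
      fin_cases i <;> simp [rot_apply, e3]
    simp [avg, this]
  rw [← h1]
  apply zonal
  · unfold avg
    exact intervalIntegral.continuous_parametric_intervalIntegral_of_continuous' (by
      have h2 : Continuous (fun q : E × ℝ => rot q.2 q.1) :=
        Continuous.comp (g := fun q : ℝ × E => rot q.1 q.2) (f := fun q : E × ℝ => (q.2, q.1))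
          continuous_rot continuous_swap
      exact Continuous.comp (g := f) (f := fun q : E × ℝ => rot q.2 q.1) hc h2) _ _
  · intro r x hr
    unfold avg
    rw [← intervalIntegral.integral_const_mul]
    congr 1
    ext t
    rw [map_smul, hh r _ hr]
  · intro u v w hu hv hw huvw
    unfold avg
    have hcuv : Continuous (fun t => f (rot t u) + f (rot t v)) := (hcr u).add (hcr v)
    rw [← intervalIntegral.integral_add ((hcr u).intervalIntegrable _ _)
      ((hcr v).intervalIntegrable _ _), ← intervalIntegral.integral_add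
      (hcuv.intervalIntegrable _ _) ((hcr w).intervalIntegrable _ _)]
    rw [show (fun t => f (rot t u) + f (rot t v) + f (rot t w)) = fun _ => (0 : ℝ) from ?_]
    · simp
    · ext t
      refine ht _ _ _ ?_ ?_ ?_ ?_
      · rw [LinearIsometryEquiv.norm_map, hu]
      · rw [LinearIsometryEquiv.norm_map, hv]
      · rw [LinearIsometryEquiv.norm_map, hw]
      · rw [← map_add, ← map_add, huvw, map_zero]
  · intro s x
    unfold avg
    have e : ∀ t, f (rot t (rot s x)) = (fun t => f (rot t x)) (t + s) := by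
      intro t
      simp only
      congr 1
      ext i
      fin_cases i <;> simp [rot_apply, Real.cos_add, Real.sin_add] <;> ring
    simp_rw [e]
    rw [intervalIntegral.integral_comp_add_right (fun t => f (rot t x))]
    have hper : Function.Periodic (fun t => f (rot t x)) (2 * Real.pi) := by
      intro t
      simp only
      congr 1
      ext i
      fin_cases i <;> simp [rot_apply]
    have := hper.intervalIntegral_add_eq s 0
    rw [zero_add] at this
    rw [zero_add, add_comm (2 * Real.pi) s]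
    exact this

/-- the closed unit ball -/
abbrev B : Set E := Metric.closedBall (0 : E) 1

lemma preimage_B (σ : E ≃ₗᵢ[ℝ] E) : σ ⁻¹' B = B := by
  ext x
  simp [B]

lemma integral_B_comp (σ : E ≃ₗᵢ[ℝ] E) (F : E → ℝ) : ∫ x in B, F (σ x) = ∫ x in B, F x := by
  have := (LinearIsometryEquiv.measurePreserving σ).setIntegral_preimage_emb
    σ.toHomeomorph.measurableEmbedding F B
  rw [preimage_B] at this
  exact this

lemma key_e3 (f : E → ℝ) (hc : Continuous f) (hh : Hom1 f) (ht : Trip f) :
    ∫ x in B, x 2 * f x = f e3 * ∫ x in B, (x 2) ^ 2 := by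
  have hcomp : IsCompact (B ×ˢ Icc (0 : ℝ) (2 * Real.pi)) :=
    (isCompact_closedBall _ _).prod isCompact_Icc
  have hcont : Continuous (fun q : E × ℝ => q.1 2 * f (rot q.2 q.1)) := by
    have h2 : Continuous (fun q : E × ℝ => rot q.2 q.1) :=
        Continuous.comp (g := fun q : ℝ × E => rot q.1 q.2) (f := fun q : E × ℝ => (q.2, q.1))
          continuous_rot continuous_swap
    have h3 : Continuous (fun q : E × ℝ => q.1 2) :=
      (EuclideanSpace.proj (2 : Fin 3)).continuous.comp continuous_fst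
    exact h3.mul (Continuous.comp (g := f) (f := fun q : E × ℝ => rot q.2 q.1) hc h2)
  have hint : Integrable (Function.uncurry fun (x : E) (t : ℝ) => x 2 * f (rot t x))
      ((volume.restrict B).prod (volume.restrict (Ioc 0 (2 * Real.pi)))) := by
    rw [Measure.prod_restrict]
    have h1 : IntegrableOn (fun q : E × ℝ => q.1 2 * f (rot q.2 q.1))
        (B ×ˢ Icc (0 : ℝ) (2 * Real.pi)) (volume.prod volume) :=
      hcont.continuousOn.integrableOn_compact hcomp
    exact h1.mono_set (prod_mono_right Ioc_subset_Icc_self)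
  have hswap := integral_integral_swap hint
  have hpi : (0 : ℝ) ≤ 2 * Real.pi := by positivity
  have hL : ∀ x : E, (∫ t, x 2 * f (rot t x) ∂(volume.restrict (Ioc 0 (2 * Real.pi)))) =
      (x 2) ^ 2 * (2 * Real.pi * f e3) := by
    intro x
    rw [integral_const_mul, ← intervalIntegral.integral_of_le hpi]
    have := avg_eq f hc hh ht x
    unfold avg at this
    rw [this]
    ring
  have hR : ∀ t : ℝ, (∫ x in B, x 2 * f (rot t x)) = ∫ x in B, x 2 * f x := by
    intro t
    rw [← integral_B_comp (rot t) (fun x => x 2 * f x)]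
    rfl
  simp_rw [hL, hR] at hswap
  rw [integral_mul_const, integral_const] at hswap
  have hm : (volume.restrict (Ioc 0 (2 * Real.pi))).real (univ : Set ℝ) = 2 * Real.pi := by
    simp [Measure.real]
    positivity
  rw [hm, smul_eq_mul] at hswap
  have hpi' : (0 : ℝ) < 2 * Real.pi := by positivity
  have : 2 * Real.pi * (∫ x in B, x 2 * f x) = 2 * Real.pi * (f e3 * ∫ x in B, (x 2) ^ 2) := by
    rw [← hswap]; ring
  exact mul_left_cancel₀ hpi'.ne' this

lemma norm_e3 : ‖e3‖ = 1 := by
  have : ‖e3‖ ^ 2 = 1 := by rw [norm_sq3]; simp [e3]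
  exact (pow_eq_one_iff_of_nonneg (norm_nonneg _) two_ne_zero).1 this

lemma exists_iso (u v : E) (h : ‖u‖ = ‖v‖) : ∃ σ : E ≃ₗᵢ[ℝ] E, σ u = v ∧
    ∀ w : E, inner ℝ (u - v) w = 0 → σ w = w := by
  refine ⟨(ℝ ∙ (u - v))ᗮ.reflection, ?_, ?_⟩
  · exact Submodule.reflection_sub h
  · intro w hw
    rw [Submodule.reflection_eq_self_iff, Submodule.mem_orthogonal_singleton_iff_inner_right]
    exact hw

lemma key (f : E → ℝ) (hc : Continuous f) (hh : Hom1 f) (ht : Trip f) (n : E) (hn : ‖n‖ = 1) :
    ∫ x in B, inner ℝ x n * f x = f n * ∫ x in B, (x 2) ^ 2 := by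
  obtain ⟨σ, hσ, -⟩ := exists_iso e3 n (by rw [norm_e3, hn])
  have h := key_e3 (fun x => f (σ x)) (hc.comp σ.continuous)
    (fun r x hr => by simp only; rw [map_smul]; exact hh r _ hr)
    (fun u v w hu hv hw huvw => ht _ _ _ (by rw [LinearIsometryEquiv.norm_map, hu])
      (by rw [LinearIsometryEquiv.norm_map, hv]) (by rw [LinearIsometryEquiv.norm_map, hw])
      (by rw [← map_add, ← map_add, huvw, map_zero]))
  rw [hσ] at h
  rw [← h, ← integral_B_comp σ]
  congr 1
  ext x
  rw [← hσ, LinearIsometryEquiv.inner_map_map, inner3]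
  simp [e3]

lemma pos_const : 0 < ∫ x in B, ((x : E) 2) ^ 2 := by
  have hc : Continuous (fun x : E => (x 2) ^ 2) :=
    ((EuclideanSpace.proj (2 : Fin 3)).continuous).pow 2
  rw [setIntegral_pos_iff_support_of_nonneg_ae]
  · refine lt_of_lt_of_le ?_ (measure_mono (s := {x : E | x 2 ≠ 0} ∩ Metric.ball 0 1) ?_)
    · apply IsOpen.measure_pos
      · refine IsOpen.inter ?_ Metric.isOpen_ball
        exact isOpen_ne_fun ((EuclideanSpace.proj (2 : Fin 3)).continuous) continuous_const
      · refine ⟨(1 / 2 : ℝ) • e3, ?_, ?_⟩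
        · simp [e3]
        · simp [norm_smul, norm_e3]
          norm_num
    · intro x hx
      refine ⟨?_, Metric.ball_subset_closedBall hx.2⟩
      simp only [Function.mem_support]
      exact pow_ne_zero 2 hx.1
  · exact Eventually.of_forall fun x => sq_nonneg _
  · exact hc.continuousOn.integrableOn_compact (isCompact_closedBall _ _)

/-- A continuous, positively homogeneous function with `f u + f v + f w = 0` for all unit vectors
with `u + v + w = 0` is linear. -/
lemma linear_of_trip (f : E → ℝ) (hc : Continuous f) (hh : Hom1 f) (ht : Trip f) :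
    ∃ a : E, ∀ x, f x = inner ℝ a x := by
  set C := ∫ x in B, ((x : E) 2) ^ 2 with hC
  have hC0 : 0 < C := pos_const
  have hint : IntegrableOn (fun x : E => f x • x) B :=
    (hc.smul continuous_id).continuousOn.integrableOn_compact (isCompact_closedBall _ _)
  set A : E := ∫ x in B, f x • x with hA
  have h1 : ∀ n : E, ‖n‖ = 1 → f n = inner ℝ (C⁻¹ • A) n := by
    intro n hn
    have h2 := key f hc hh ht n hn
    have h3 : inner ℝ n A = ∫ x in B, inner ℝ n (f x • x) := by
      rw [hA]
      exact (integral_inner hint n).symm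
    have h4 : (∫ x in B, inner ℝ n (f x • x)) = ∫ x in B, inner ℝ x n * f x := by
      congr 1
      ext x
      rw [inner_smul_right, real_inner_comm]
      ring
    rw [real_inner_comm, inner_smul_right, h3, h4, h2, ← hC]
    field_simp
  refine ⟨C⁻¹ • A, fun x => ?_⟩
  rcases eq_or_ne x 0 with rfl | hx
  · have := hh 0 0 le_rfl
    simp at this
    simp [this]
  · have hxn : 0 < ‖x‖ := norm_pos_iff.2 hx
    have hxu : ‖(‖x‖⁻¹ • x)‖ = 1 := by
      rw [norm_smul, norm_inv, norm_norm, inv_mul_cancel₀ hxn.ne']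
    have h5 := hh ‖x‖ (‖x‖⁻¹ • x) hxn.le
    rw [smul_smul, mul_inv_cancel₀ hxn.ne', one_smul, h1 _ hxu] at h5
    rw [h5, inner_smul_right]
    field_simp

lemma exists_rotation (u v u' v' m : E) (hu : ‖u‖ = 1) (hv : ‖v‖ = 1) (hu' : ‖u'‖ = 1)
    (hv' : ‖v'‖ = 1) (h : inner ℝ u v = inner ℝ u' v') (hm : m ≠ 0) (hmu : inner ℝ m u' = 0)
    (hmv : inner ℝ m v' = 0) :
    ∃ ρ : E ≃ₗᵢ[ℝ] E, LinearMap.det (ρ.toLinearEquiv : E →ₗ[ℝ] E) = 1 ∧ ρ u = u' ∧ ρ v = v' := by
  have refl_det : ∀ K : Submodule ℝ E,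
      LinearMap.det (K.reflection.toLinearEquiv : E →ₗ[ℝ] E) = 1 ∨
      LinearMap.det (K.reflection.toLinearEquiv : E →ₗ[ℝ] E) = -1 := by
    intro K
    rw [Submodule.det_reflection]
    exact neg_one_pow_eq_or ℝ _
  set σ₁ := (ℝ ∙ (u - u'))ᗮ.reflection with hσ₁
  have h1 : σ₁ u = u' := Submodule.reflection_sub (by rw [hu, hu'])
  set v₁ := σ₁ v with hv₁
  have hv₁n : ‖v₁‖ = 1 := by rw [hv₁, LinearIsometryEquiv.norm_map, hv]
  set σ₂ := (ℝ ∙ (v₁ - v'))ᗮ.reflection with hσ₂
  have h2 : σ₂ v₁ = v' := Submodule.reflection_sub (by rw [hv₁n, hv'])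
  have h3 : σ₂ u' = u' := by
    rw [hσ₂, Submodule.reflection_eq_self_iff, Submodule.mem_orthogonal_singleton_iff_inner_right,
      inner_sub_left, real_inner_comm, ← h1, hv₁, LinearIsometryEquiv.inner_map_map, h, h1,
      real_inner_comm, sub_self]
  set σ₃ := (ℝ ∙ m)ᗮ.reflection with hσ₃
  have h4 : σ₃ u' = u' := by
    rw [hσ₃, Submodule.reflection_eq_self_iff, Submodule.mem_orthogonal_singleton_iff_inner_right]
    exact hmu
  have h5 : σ₃ v' = v' := by
    rw [hσ₃, Submodule.reflection_eq_self_iff, Submodule.mem_orthogonal_singleton_iff_inner_right]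
    exact hmv
  have d3 : LinearMap.det (σ₃.toLinearEquiv : E →ₗ[ℝ] E) = -1 := by
    rw [hσ₃, Submodule.det_reflection, Submodule.orthogonal_orthogonal, finrank_span_singleton hm]
    norm_num
  have d12 : LinearMap.det ((σ₁.trans σ₂).toLinearEquiv : E →ₗ[ℝ] E) =
      LinearMap.det (σ₂.toLinearEquiv : E →ₗ[ℝ] E) * LinearMap.det (σ₁.toLinearEquiv : E →ₗ[ℝ] E) := by
    rw [← LinearMap.det_comp]
    rfl
  have d123 : LinearMap.det (((σ₁.trans σ₂).trans σ₃).toLinearEquiv : E →ₗ[ℝ] E) =
      LinearMap.det (σ₃.toLinearEquiv : E →ₗ[ℝ] E) *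
        LinearMap.det ((σ₁.trans σ₂).toLinearEquiv : E →ₗ[ℝ] E) := by
    rw [← LinearMap.det_comp]
    rfl
  have hd : LinearMap.det ((σ₁.trans σ₂).toLinearEquiv : E →ₗ[ℝ] E) = 1 ∨
      LinearMap.det ((σ₁.trans σ₂).toLinearEquiv : E →ₗ[ℝ] E) = -1 := by
    rw [d12]
    rcases refl_det (ℝ ∙ (u - u'))ᗮ with e1 | e1 <;> rcases refl_det (ℝ ∙ (v₁ - v'))ᗮ with e2 | e2 <;>
      simp [hσ₁, hσ₂, e1, e2]
  rcases hd with hd | hd
  · exact ⟨σ₁.trans σ₂, hd, by simp [h1, h3], by simp [← hv₁, h2]⟩
  · refine ⟨(σ₁.trans σ₂).trans σ₃, by rw [d123, d3, hd]; norm_num, by simp [h1, h3, h4],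
      by simp [← hv₁, h2, h5]⟩

/-- The support function. -/
noncomputable def supp (K : Set E) (u : E) : ℝ := sSup ((fun x => inner ℝ u x) '' K)

lemma supp_bdd {K : Set E} (hK : IsCompact K) (u : E) : BddAbove ((fun x => inner ℝ u x) '' K) :=
  (hK.image (by fun_prop)).bddAbove

lemma le_supp {K : Set E} (hK : IsCompact K) (u : E) {x : E} (hx : x ∈ K) :
    inner ℝ u x ≤ supp K u := le_csSup (supp_bdd hK u) ⟨x, hx, rfl⟩

lemma supp_hom {K : Set E} (hK : IsCompact K) (hne : K.Nonempty) (r : ℝ) (u : E) (hr : 0 ≤ r) :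
    supp K (r • u) = r * supp K u := by
  rcases hr.eq_or_lt with rfl | hr
  · obtain ⟨x, hx⟩ := hne
    have : (fun y : E => inner ℝ ((0 : ℝ) • u) y) '' K = {0} := by
      ext y
      simp only [zero_smul, inner_zero_left, mem_image, mem_singleton_iff]
      exact ⟨fun ⟨_, _, h⟩ => h.symm, fun h => ⟨x, hx, h.symm⟩⟩
    unfold supp
    rw [this, csSup_singleton, zero_mul]
  · apply le_antisymm
    · refine csSup_le (hne.image _) ?_
      rintro _ ⟨x, hx, rfl⟩
      simp only [inner_smul_left, conj_trivial]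
      exact mul_le_mul_of_nonneg_left (le_supp hK u hx) hr.le
    · rw [← le_div_iff₀' hr]
      refine csSup_le (hne.image _) ?_
      rintro _ ⟨x, hx, rfl⟩
      rw [le_div_iff₀' hr]
      have := le_supp hK (r • u) hx
      simpa only [inner_smul_left, conj_trivial] using this

lemma supp_cont {K : Set E} (hK : IsCompact K) : Continuous (supp K) := by
  have := hK.continuous_sSup (f := fun (u x : E) => inner ℝ u x) (by
    exact continuous_fst.inner continuous_snd)
  exact this

/-- A compact convex set is determined by its support function. -/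
lemma eq_ball_of_supp {K : Set E} (hK : IsCompact K) (hne : K.Nonempty) (hconv : Convex ℝ K)
    (a : E) (r : ℝ) (h : ∀ u, supp K u = r * ‖u‖ + inner ℝ a u) (hr : 0 ≤ r) :
    K = Metric.closedBall a r := by
  apply Subset.antisymm
  · intro x hx
    rw [mem_closedBall_iff_norm]
    have h1 := le_supp hK (x - a) hx
    rw [h] at h1
    have h2 : ‖x - a‖ ^ 2 ≤ r * ‖x - a‖ := by
      rw [← real_inner_self_eq_norm_sq]
      have e : inner ℝ (x - a) x = inner ℝ (x - a) (x - a) + inner ℝ a (x - a) := by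
        rw [inner_sub_right (x - a) x a, real_inner_comm a (x - a)]
        ring
      linarith
    rcases (norm_nonneg (x - a)).eq_or_lt with h3 | h3
    · rw [← h3]; exact hr
    · nlinarith
  · intro x hx
    rw [mem_closedBall_iff_norm] at hx
    by_contra hxK
    obtain ⟨φ, s, h1, h2⟩ := geometric_hahn_banach_closed_point hconv hK.isClosed hxK
    obtain ⟨u, hu⟩ : ∃ u : E, ∀ y, φ y = inner ℝ u y :=
      ⟨(InnerProductSpace.toDual ℝ E).symm φ, fun y => by simp⟩
    have h3 : supp K u ≤ s := by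
      refine csSup_le (hne.image _) ?_
      rintro _ ⟨y, hy, rfl⟩
      simp only
      rw [← hu]
      exact (h1 y hy).le
    rw [h, hu] at *
    have h4 : inner ℝ u (x - a) ≤ ‖u‖ * ‖x - a‖ := real_inner_le_norm _ _
    rw [inner_sub_right] at h4
    have h5 : ‖u‖ * ‖x - a‖ ≤ r * ‖u‖ := by
      rw [mul_comm r]
      exact mul_le_mul_of_nonneg_left hx (norm_nonneg _)
    rw [real_inner_comm a u] at h4
    linarith

/-- The data of an equilateral triangle relative to its centroid. -/
lemma triangle_data (A B C : E) (s : ℝ) (h0 : A + B + C = 0) (hAB : ‖A - B‖ = s)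
    (hBC : ‖B - C‖ = s) (hCA : ‖C - A‖ = s) :
    ‖A‖ ^ 2 = s ^ 2 / 3 ∧ ‖B‖ ^ 2 = s ^ 2 / 3 ∧ ‖C‖ ^ 2 = s ^ 2 / 3 ∧
      inner ℝ A B = -(s ^ 2 / 6) ∧ inner ℝ B C = -(s ^ 2 / 6) ∧ inner ℝ C A = -(s ^ 2 / 6) := by
  have hC : C = -(A + B) := by
    rw [eq_neg_iff_add_eq_zero, ← h0]; abel
  subst hC
  have e1 := norm_sub_sq_real A B
  rw [hAB] at e1
  have e2 : s ^ 2 = ‖A‖ ^ 2 + 4 * ‖B‖ ^ 2 + 4 * inner ℝ A B := by
    rw [← hBC, ← real_inner_self_eq_norm_sq, ← real_inner_self_eq_norm_sq,
      ← real_inner_self_eq_norm_sq]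
    simp only [inner_sub_left, inner_sub_right, inner_neg_left, inner_neg_right, inner_add_left,
      inner_add_right, real_inner_comm A B]
    ring
  have e3 : s ^ 2 = 4 * ‖A‖ ^ 2 + ‖B‖ ^ 2 + 4 * inner ℝ A B := by
    rw [← hCA, ← real_inner_self_eq_norm_sq, ← real_inner_self_eq_norm_sq,
      ← real_inner_self_eq_norm_sq]
    simp only [inner_sub_left, inner_sub_right, inner_neg_left, inner_neg_right, inner_add_left,
      inner_add_right, real_inner_comm A B]
    ring
  have e4 : ‖-(A + B)‖ ^ 2 = ‖A‖ ^ 2 + 2 * inner ℝ A B + ‖B‖ ^ 2 := by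
    rw [norm_neg, norm_add_sq_real]
  refine ⟨by linarith, by linarith, by rw [e4]; linarith, by linarith, ?_, ?_⟩
  · rw [inner_neg_right, inner_add_right, real_inner_self_eq_norm_sq, real_inner_comm]
    linarith
  · rw [inner_neg_left, inner_add_left, real_inner_self_eq_norm_sq, real_inner_comm]
    linarith

/-- The centroid. -/
noncomputable def cen (a b c : E) : E := (1 / 3 : ℝ) • (a + b + c)

lemma cen_sum (a b c : E) : (a - cen a b c) + (b - cen a b c) + (c - cen a b c) = 0 := by
  unfold cen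
  module

section tri

variable {a b c : E} {s : ℝ}

lemma cen_rot (a b c : E) : cen b c a = cen a b c := by
  unfold cen
  congr 1
  abel

lemma IsHorizontalEquilateral.rot (h : IsHorizontalEquilateral a b c s) : IsHorizontalEquilateral b c a s := ⟨h.pos, h.bc, h.ca, h.ab, h.hb, h.hc, h.ha⟩

lemma IsHorizontalEquilateral.cen_two (h : IsHorizontalEquilateral a b c s) : (cen a b c) 2 = 0 := by
  simp [cen, h.ha, h.hb, h.hc]

lemma IsHorizontalEquilateral.data (h : IsHorizontalEquilateral a b c s) :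
    ‖a - cen a b c‖ ^ 2 = s ^ 2 / 3 ∧ ‖b - cen a b c‖ ^ 2 = s ^ 2 / 3 ∧
    ‖c - cen a b c‖ ^ 2 = s ^ 2 / 3 ∧ inner ℝ (a - cen a b c) (b - cen a b c) = -(s ^ 2 / 6) ∧
    inner ℝ (b - cen a b c) (c - cen a b c) = -(s ^ 2 / 6) ∧
    inner ℝ (c - cen a b c) (a - cen a b c) = -(s ^ 2 / 6) := by
  apply triangle_data _ _ _ s (cen_sum a b c)
  · rw [sub_sub_sub_cancel_right, ← dist_eq_norm, h.ab]
  · rw [sub_sub_sub_cancel_right, ← dist_eq_norm, h.bc]
  · rw [sub_sub_sub_cancel_right, ← dist_eq_norm, h.ca]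

lemma inner_e3_left (x : E) : inner ℝ e3 x = x 2 := by
  rw [inner3]; simp [e3]

/-- The outward unit normal vector of the face over the edge `b c`. -/
noncomputable def nor (a b c : E) (s : ℝ) : E := (-(√3 / s)) • (a - cen a b c)

lemma IsHorizontalEquilateral.nor_norm (h : IsHorizontalEquilateral a b c s) : ‖nor a b c s‖ = 1 := by
  have hs := h.pos
  have h1 : ‖nor a b c s‖ ^ 2 = 1 := by
    unfold nor
    rw [norm_smul, mul_pow, h.data.1, norm_neg, Real.norm_of_nonneg (by positivity), div_pow,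
      Real.sq_sqrt (by norm_num)]
    field_simp
  exact (pow_eq_one_iff_of_nonneg (norm_nonneg _) two_ne_zero).1 h1

lemma nor_sum (a b c : E) (s : ℝ) : nor a b c s + nor b c a s + nor c a b s = 0 := by
  unfold nor
  rw [cen_rot b c a, cen_rot a b c, ← smul_add, ← smul_add, cen_sum, smul_zero]

lemma IsHorizontalEquilateral.nor_inner (h : IsHorizontalEquilateral a b c s) : inner ℝ (nor a b c s) (nor b c a s) = -1 / 2 := by
  have hs := h.pos
  unfold nor
  rw [cen_rot a b c, inner_smul_left, inner_smul_right, h.data.2.2.2.1, conj_trivial]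
  have h3 : √(3 : ℝ) ^ 2 = 3 := Real.sq_sqrt (by norm_num)
  field_simp
  linear_combination (-(2 : ℝ)) * h3

lemma IsHorizontalEquilateral.e3_nor (h : IsHorizontalEquilateral a b c s) : inner ℝ e3 (nor a b c s) = 0 := by
  rw [inner_e3_left]
  simp [nor, h.ha, h.cen_two]

lemma IsHorizontalEquilateral.inner_nor_e3 (h : IsHorizontalEquilateral a b c s) : inner ℝ (nor a b c s) e3 = 0 := by
  rw [real_inner_comm]; exact h.e3_nor

/-- The value of the normal functional at the vertices. -/
lemma IsHorizontalEquilateral.nor_a (h : IsHorizontalEquilateral a b c s) : inner ℝ (nor a b c s) (a - cen a b c) = -(s / √3) := by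
  have hs := h.pos
  unfold nor
  rw [inner_smul_left, real_inner_self_eq_norm_sq, h.data.1, conj_trivial]
  have h3 : √(3 : ℝ) ^ 2 = 3 := Real.sq_sqrt (by norm_num)
  have h4 : 0 < √(3 : ℝ) := by positivity
  field_simp
  linarith

lemma IsHorizontalEquilateral.nor_b (h : IsHorizontalEquilateral a b c s) : inner ℝ (nor a b c s) (b - cen a b c) = s / (2 * √3) := by
  have hs := h.pos
  unfold nor
  rw [inner_smul_left, h.data.2.2.2.1, conj_trivial]
  have h3 : √(3 : ℝ) ^ 2 = 3 := Real.sq_sqrt (by norm_num)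
  have h4 : 0 < √(3 : ℝ) := by positivity
  field_simp
  linarith

lemma IsHorizontalEquilateral.nor_c (h : IsHorizontalEquilateral a b c s) : inner ℝ (nor a b c s) (c - cen a b c) = s / (2 * √3) := by
  have hs := h.pos
  unfold nor
  rw [inner_smul_left, real_inner_comm, h.data.2.2.2.2.2, conj_trivial]
  have h3 : √(3 : ℝ) ^ 2 = 3 := Real.sq_sqrt (by norm_num)
  have h4 : 0 < √(3 : ℝ) := by positivity
  field_simp
  linarith

lemma IsHorizontalEquilateral.inr_pos (h : IsHorizontalEquilateral a b c s) : 0 < s / (2 * √3) := by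
  have hs := h.pos
  positivity

lemma prism_rot (a b c : E) : prism b c a = prism a b c := by
  unfold prism
  have : ({b, c, a} : Set E) = {a, b, c} := by
    ext x; simp only [mem_insert_iff, mem_singleton_iff]; tauto
  rw [this]

lemma IsHorizontalEquilateral.prism_le (h : IsHorizontalEquilateral a b c s) {x : E} (hx : x ∈ prism a b c) :
    inner ℝ (nor a b c s) (x - cen a b c) ≤ s / (2 * √3) := by
  obtain ⟨y, hy, z, rfl⟩ := hx
  have h1 : inner ℝ (nor a b c s) (y + z • e3 - cen a b c) =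
      inner ℝ (nor a b c s) (y - cen a b c) := by
    rw [show y + z • e3 - cen a b c = (y - cen a b c) + z • e3 by abel, inner_add_right,
      inner_smul_right, h.inner_nor_e3, mul_zero, add_zero]
  rw [h1]
  have hconv : Convex ℝ {y : E | inner ℝ (nor a b c s) (y - cen a b c) ≤ s / (2 * √3)} := by
    intro p hp q hq α β hα hβ hαβ
    simp only [mem_ofPred_eq] at *
    have e : α • p + β • q - cen a b c = α • (p - cen a b c) + β • (q - cen a b c) := by
      rw [smul_sub, smul_sub]
      have : cen a b c = α • cen a b c + β • cen a b c := by rw [← add_smul, hαβ, one_smul]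
      nth_rw 1 [this]
      abel
    rw [e, inner_add_right, inner_smul_right, inner_smul_right]
    calc _ ≤ α * (s / (2 * √3)) + β * (s / (2 * √3)) := by gcongr
      _ = s / (2 * √3) := by rw [← add_mul, hαβ, one_mul]
  refine convexHull_min ?_ hconv hy
  rintro _ (rfl | rfl | rfl)
  · simp only [mem_ofPred_eq]
    rw [h.nor_a]
    have := h.pos
    have h4 : 0 ≤ s / √3 := by positivity
    have h5 : 0 ≤ s / (2 * √3) := by positivity
    linarith
  · simp only [mem_ofPred_eq]
    rw [h.nor_b]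
  · simp only [mem_ofPred_eq]
    rw [h.nor_c]

lemma IsHorizontalEquilateral.face_eq (h : IsHorizontalEquilateral a b c s) {x : E} (hx : x ∈ face b c) :
    inner ℝ (nor a b c s) (x - cen a b c) = s / (2 * √3) := by
  obtain ⟨y, ⟨α, β, hα, hβ, hαβ, rfl⟩, z, rfl⟩ := hx
  have e : α • b + β • c + z • e3 - cen a b c =
      α • (b - cen a b c) + β • (c - cen a b c) + z • e3 := by
    rw [smul_sub, smul_sub]
    have : cen a b c = α • cen a b c + β • cen a b c := by rw [← add_smul, hαβ, one_smul]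
    nth_rw 1 [this]
    abel
  rw [e, inner_add_right, inner_add_right, inner_smul_right, inner_smul_right, inner_smul_right,
    h.nor_b, h.nor_c, h.inner_nor_e3, mul_zero, add_zero, ← add_mul, hαβ, one_mul]

/-- Two vectors which are horizontal and orthogonal to two independent horizontal vectors. -/
lemma IsHorizontalEquilateral.expand (h : IsHorizontalEquilateral a b c s) (y : E) (hy : y 2 = 0) :
    y = (2 / 3 : ℝ) • (inner ℝ (nor a b c s) y • nor a b c s +
      inner ℝ (nor b c a s) y • nor b c a s + inner ℝ (nor c a b s) y • nor c a b s) := by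
  set n₁ := nor a b c s with hn₁
  set n₂ := nor b c a s with hn₂
  have hn₃ : nor c a b s = -(n₁ + n₂) := by
    rw [eq_neg_iff_add_eq_zero, ← nor_sum a b c s]; abel
  rw [hn₃]
  have h1 : inner ℝ n₁ n₁ = (1 : ℝ) := by
    rw [real_inner_self_eq_norm_sq, hn₁, h.nor_norm, one_pow]
  have h2 : inner ℝ n₂ n₂ = (1 : ℝ) := by
    rw [real_inner_self_eq_norm_sq, hn₂, h.rot.nor_norm, one_pow]
  have h3 : inner ℝ n₁ n₂ = (-1 / 2 : ℝ) := h.nor_inner
  have z1 : n₁ 2 = 0 := by rw [← inner_e3_left]; exact h.e3_nor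
  have z2 : n₂ 2 = 0 := by rw [← inner_e3_left]; exact h.rot.e3_nor
  rw [inner3] at h1 h2 h3
  rw [z1] at h1 h3
  rw [z2] at h2
  simp only [mul_zero, add_zero, zero_mul] at h1 h2 h3
  obtain ⟨p, hp⟩ : ∃ p, p = n₁ 0 := ⟨_, rfl⟩
  obtain ⟨q, hq⟩ : ∃ q, q = n₁ 1 := ⟨_, rfl⟩
  obtain ⟨p', hp'⟩ : ∃ p', p' = n₂ 0 := ⟨_, rfl⟩
  obtain ⟨q', hq'⟩ : ∃ q', q' = n₂ 1 := ⟨_, rfl⟩
  obtain ⟨y0, hy0⟩ : ∃ y0, y0 = y 0 := ⟨_, rfl⟩
  obtain ⟨y1, hy1⟩ : ∃ y1, y1 = y 1 := ⟨_, rfl⟩
  have hd : (p * q' - p' * q) ^ 2 = 3 / 4 := by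
    rw [hp, hq, hp', hq']
    linear_combination (n₂ 0 * n₂ 0 + n₂ 1 * n₂ 1) * h1 + h2 - (n₁ 0 * n₂ 0 + n₁ 1 * n₂ 1 - 1 / 2) * h3
  rw [← hp, ← hq] at h1
  rw [← hp', ← hq'] at h2
  rw [← hp, ← hq, ← hp', ← hq'] at h3
  have hd0 : p * q' - p' * q ≠ 0 := by
    intro h0
    rw [h0] at hd
    norm_num at hd
  have e1 : (2 * p ^ 2 + 2 * p' ^ 2 + 2 * p * p' - 3 / 2) * p +
      (2 * p * q + 2 * p' * q' + p * q' + p' * q) * q = 0 := by
    linear_combination (2 * p + p') * h1 + (2 * p' + p) * h3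
  have e2 : (2 * p ^ 2 + 2 * p' ^ 2 + 2 * p * p' - 3 / 2) * p' +
      (2 * p * q + 2 * p' * q' + p * q' + p' * q) * q' = 0 := by
    linear_combination (2 * p' + p) * h2 + (2 * p + p') * h3
  have hS : 2 * p ^ 2 + 2 * p' ^ 2 + 2 * p * p' - 3 / 2 = 0 := by
    have : (2 * p ^ 2 + 2 * p' ^ 2 + 2 * p * p' - 3 / 2) * (p * q' - p' * q) = 0 := by
      linear_combination q' * e1 - q * e2
    exact (mul_eq_zero.1 this).resolve_right hd0
  have hU : 2 * p * q + 2 * p' * q' + p * q' + p' * q = 0 := by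
    have : (2 * p * q + 2 * p' * q' + p * q' + p' * q) * (p * q' - p' * q) = 0 := by
      linear_combination p * e2 - p' * e1
    exact (mul_eq_zero.1 this).resolve_right hd0
  have hT : 2 * q ^ 2 + 2 * q' ^ 2 + 2 * q * q' - 3 / 2 = 0 := by
    linear_combination 2 * h1 + 2 * h2 + 2 * h3 - hS
  ext i
  fin_cases i
  · simp only [inner3, z1, z2, hy, Fin.zero_eta, PiLp.smul_apply, PiLp.add_apply, PiLp.neg_apply,
      smul_eq_mul, mul_zero, add_zero, inner_neg_left, inner_add_left]
    rw [← hp, ← hq, ← hp', ← hq', ← hy0, ← hy1]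
    linear_combination (-(2 : ℝ) / 3) * (y0 * hS + y1 * hU)
  · simp only [inner3, z1, z2, hy, Fin.mk_one, PiLp.smul_apply, PiLp.add_apply, PiLp.neg_apply,
      smul_eq_mul, mul_zero, add_zero, inner_neg_left, inner_add_left]
    rw [← hp, ← hq, ← hp', ← hq', ← hy0, ← hy1]
    linear_combination (-(2 : ℝ) / 3) * (y0 * hU + y1 * hT)
  · simp [z1, z2, hy]

end tri

/-- The support function values of a rotor. -/
lemma rotor_supp {a b c : E} {s : ℝ} (h : IsHorizontalEquilateral a b c s) {K : Set E} (ρ : E ≃ₗᵢ[ℝ] E) (t : E)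
    (h1 : displace ρ t K ⊆ prism a b c)
    (h2 : (displace ρ t K ∩ face b c).Nonempty) (v : E) (hv : ρ v = nor a b c s) :
    supp K v = s / (2 * √3) - inner ℝ (nor a b c s) (t - cen a b c) := by
  have e : ∀ x, inner ℝ v x = inner ℝ (nor a b c s) (ρ x + t - cen a b c) -
      inner ℝ (nor a b c s) (t - cen a b c) := by
    intro x
    rw [← inner_sub_right, show ρ x + t - cen a b c - (t - cen a b c) = ρ x by abel, ← hv,
      LinearIsometryEquiv.inner_map_map]
  have hg : IsGreatest ((fun x => inner ℝ v x) '' K)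
      (s / (2 * √3) - inner ℝ (nor a b c s) (t - cen a b c)) := by
    constructor
    · obtain ⟨_, ⟨x, hx, rfl⟩, hf⟩ := h2
      refine ⟨x, hx, ?_⟩
      simp only
      rw [e x, h.face_eq hf]
    · rintro _ ⟨x, hx, rfl⟩
      simp only
      rw [e x]
      have := h.prism_le (h1 ⟨x, hx, rfl⟩)
      simp only at this
      linarith
  exact hg.csSup_eq

lemma rotor_trip {a b c : E} {s : ℝ} (h : IsHorizontalEquilateral a b c s) {K : Set E} (hK : IsRotor a b c K) :
    Trip (fun u => supp K u - s / (2 * √3) * ‖u‖) := by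
  intro u v w hu hv hw huvw
  have huv : inner ℝ u v = (-1 / 2 : ℝ) := by
    have hw' : w = -(u + v) := by rw [eq_neg_iff_add_eq_zero, ← huvw]; abel
    rw [hw', norm_neg] at hw
    have := norm_add_sq_real u v
    rw [hw, hu, hv] at this
    linarith
  have he3 : e3 ≠ 0 := by
    intro h0
    have := norm_e3
    rw [h0, norm_zero] at this
    norm_num at this
  obtain ⟨ρ, hdet, hρu, hρv⟩ := exists_rotation u v (nor a b c s) (nor b c a s) e3 hu hv
    h.nor_norm h.rot.nor_norm (by rw [huv, h.nor_inner]) he3 h.e3_nor h.rot.e3_nor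
  have hρw : ρ w = nor c a b s := by
    have hw' : w = -(u + v) := by rw [eq_neg_iff_add_eq_zero, ← huvw]; abel
    rw [hw', map_neg, map_add, hρu, hρv, neg_eq_iff_add_eq_zero, nor_sum]
  obtain ⟨t, h0, h1, h2, h3⟩ := hK ρ hdet
  have s1 := rotor_supp h ρ t h0 h2 u hρu
  have s2 := rotor_supp h.rot ρ t (by rw [prism_rot]; exact h0) h3 v hρv
  have s3 := rotor_supp h.rot.rot ρ t (by rw [prism_rot, prism_rot]; exact h0) h1 w hρw
  simp only
  rw [s1, s2, s3, hu, hv, hw, cen_rot b c a, cen_rot a b c]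
  have : inner ℝ (nor a b c s) (t - cen a b c) + inner ℝ (nor b c a s) (t - cen a b c) +
      inner ℝ (nor c a b s) (t - cen a b c) = 0 := by
    rw [← inner_add_left, ← inner_add_left, nor_sum, inner_zero_left]
  linarith

lemma ball_of_rotor {a b c : E} {s : ℝ} (h : IsHorizontalEquilateral a b c s) {K : Set E} (hK : IsConvexBody K)
    (hR : IsRotor a b c K) : ∃ x, K = Metric.closedBall x (s / (2 * √3)) := by
  have hne : K.Nonempty := hK.interior_nonempty.mono interior_subset
  obtain ⟨p, hp⟩ := linear_of_trip (fun u => supp K u - s / (2 * √3) * ‖u‖)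
    ((supp_cont hK.compact).sub (continuous_const.mul continuous_norm))
    (fun r x hr => by
      simp only
      rw [supp_hom hK.compact hne r x hr, norm_smul, Real.norm_of_nonneg hr]
      ring) (rotor_trip h hR)
  refine ⟨p, eq_ball_of_supp hK.compact hne hK.convex p _ (fun u => ?_) h.inr_pos.le⟩
  have := hp u
  linarith

lemma ball_sub_prism {a b c : E} {s : ℝ} (h : IsHorizontalEquilateral a b c s) {x : E}
    (hx : ‖x - cen a b c‖ ≤ s / (2 * √3)) : x ∈ prism a b c := by
  have hs := h.pos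
  have h3 : √(3 : ℝ) ^ 2 = 3 := Real.sq_sqrt (by norm_num)
  have h4 : 0 < √(3 : ℝ) := by positivity
  set r := s / (2 * √3) with hr
  have hr0 : 0 < r := h.inr_pos
  have hle : ∀ n : E, ‖n‖ = 1 → inner ℝ n (x - cen a b c) ≤ r := by
    intro n hn
    have := real_inner_le_norm n (x - cen a b c)
    rw [hn, one_mul] at this
    linarith
  -- the horizontal projection
  set y : E := x - x 2 • e3 - cen a b c with hy
  have hy2 : y 2 = 0 := by
    simp [hy, h.cen_two, e3]
  have hyi : ∀ n : E, inner ℝ n e3 = (0 : ℝ) → inner ℝ n y = inner ℝ n (x - cen a b c) := by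
    intro n hn
    rw [hy, show x - x 2 • e3 - cen a b c = (x - cen a b c) - x 2 • e3 by abel, inner_sub_right,
      inner_smul_right, hn, mul_zero, sub_zero]
  have hexp := h.expand y hy2
  rw [hyi _ h.inner_nor_e3, hyi _ h.rot.inner_nor_e3, hyi _ h.rot.rot.inner_nor_e3] at hexp
  set i₁ := inner ℝ (nor a b c s) (x - cen a b c) with hi₁
  set i₂ := inner ℝ (nor b c a s) (x - cen a b c) with hi₂
  set i₃ := inner ℝ (nor c a b s) (x - cen a b c) with hi₃
  have l1 : i₁ ≤ r := hle _ h.nor_norm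
  have l2 : i₂ ≤ r := hle _ h.rot.nor_norm
  have l3 : i₃ ≤ r := hle _ h.rot.rot.nor_norm
  have hsum : i₁ + i₂ + i₃ = 0 := by
    rw [hi₁, hi₂, hi₃, ← inner_add_left, ← inner_add_left, nor_sum, inner_zero_left]
  refine ⟨x - x 2 • e3, ?_, x 2, by abel⟩
  have hx' : x - x 2 • e3 = y + cen a b c := by rw [hy]; abel
  rw [hx', hexp]
  have hcomb : (2 / 3 : ℝ) • (i₁ • nor a b c s + i₂ • nor b c a s + i₃ • nor c a b s) + cen a b c =
      ((r - i₁) / (3 * r)) • a + ((r - i₂) / (3 * r)) • b + ((r - i₃) / (3 * r)) • c := by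
    have hk : √3 / s = 1 / (2 * r) := by
      rw [hr]; field_simp
    unfold nor
    rw [cen_rot b c a, cen_rot a b c, hk]
    obtain ⟨g, hg⟩ : ∃ g, g = cen a b c := ⟨_, rfl⟩
    obtain ⟨A, hA⟩ : ∃ A, A = a - g := ⟨_, rfl⟩
    obtain ⟨B', hB⟩ : ∃ B', B' = b - g := ⟨_, rfl⟩
    obtain ⟨C, hC⟩ : ∃ C, C = c - g := ⟨_, rfl⟩
    have h0 : A + B' + C = 0 := by rw [hA, hB, hC, hg]; exact cen_sum a b c
    have ea : a = A + g := by rw [hA]; abel
    have eb : b = B' + g := by rw [hB]; abel
    have ec : c = C + g := by rw [hC]; abel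
    obtain ⟨ρ, hρ⟩ : ∃ ρ, ρ = r⁻¹ := ⟨_, rfl⟩
    have e : ∀ (i : ℝ), (r - i) / (3 * r) = 1 / 3 - 1 / 3 * i * ρ := by
      intro i; rw [hρ]; field_simp
    have e' : (1 : ℝ) / (2 * r) = 1 / 2 * ρ := by rw [hρ]; field_simp
    rw [← hg, e, e, e, e', ← hA, ← hB, ← hC]
    rw [show (1 / 3 - 1 / 3 * i₁ * ρ) • a = (1 / 3 - 1 / 3 * i₁ * ρ) • (A + g) by rw [← ea],
      show (1 / 3 - 1 / 3 * i₂ * ρ) • b = (1 / 3 - 1 / 3 * i₂ * ρ) • (B' + g) by rw [← eb],
      show (1 / 3 - 1 / 3 * i₃ * ρ) • c = (1 / 3 - 1 / 3 * i₃ * ρ) • (C + g) by rw [← ec]]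
    have h1 : (1 / 3 - 1 / 3 * i₁ * ρ) • (A + g) + (1 / 3 - 1 / 3 * i₂ * ρ) • (B' + g) +
        (1 / 3 - 1 / 3 * i₃ * ρ) • (C + g) = (1 / 3 : ℝ) • (A + B' + C) +
        (1 - 1 / 3 * (i₁ + i₂ + i₃) * ρ) • g - (1 / 3 : ℝ) • (i₁ * ρ) • A -
        (1 / 3 : ℝ) • (i₂ * ρ) • B' - (1 / 3 : ℝ) • (i₃ * ρ) • C := by module
    rw [h1, h0, hsum]
    module
  rw [hcomb]
  have hconv := convex_convexHull ℝ ({a, b, c} : Set E)
  have hma : a ∈ convexHull ℝ ({a, b, c} : Set E) := subset_convexHull ℝ _ (by simp)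
  have hmb : b ∈ convexHull ℝ ({a, b, c} : Set E) := subset_convexHull ℝ _ (by simp)
  have hmc : c ∈ convexHull ℝ ({a, b, c} : Set E) := subset_convexHull ℝ _ (by simp)
  have hw : ∀ i : Fin 3, 0 ≤ (![(r - i₁) / (3 * r), (r - i₂) / (3 * r), (r - i₃) / (3 * r)] i) := by
    intro i
    fin_cases i
    · exact div_nonneg (by linarith) (by positivity)
    · exact div_nonneg (by linarith) (by positivity)
    · exact div_nonneg (by linarith) (by positivity)
  have := hconv.sum_mem (t := Finset.univ)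
    (w := ![(r - i₁) / (3 * r), (r - i₂) / (3 * r), (r - i₃) / (3 * r)]) (z := ![a, b, c])
    (fun i _ => hw i) (by
      simp [Fin.sum_univ_three]
      field_simp
      linarith) (by
      intro i _
      fin_cases i
      · exact hma
      · exact hmb
      · exact hmc)
  simpa [Fin.sum_univ_three] using this

lemma rotor_of_ball {a b c : E} {s : ℝ} (h : IsHorizontalEquilateral a b c s) (p : E) :
    IsRotor a b c (Metric.closedBall p (s / (2 * √3))) := by
  intro ρ _
  have himg : displace ρ (cen a b c - ρ p) (Metric.closedBall p (s / (2 * √3))) =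
      Metric.closedBall (cen a b c) (s / (2 * √3)) := by
    ext y
    constructor
    · rintro ⟨x, hx, rfl⟩
      rw [mem_closedBall_iff_norm] at *
      simp only
      rw [show ρ x + (cen a b c - ρ p) - cen a b c = ρ x - ρ p by abel, ← map_sub,
        LinearIsometryEquiv.norm_map]
      exact hx
    · intro hy
      rw [mem_closedBall_iff_norm] at hy
      refine ⟨ρ.symm (y - (cen a b c - ρ p)), ?_, by simp⟩
      rw [mem_closedBall_iff_norm, ← LinearIsometryEquiv.norm_map ρ, map_sub]
      simp only [LinearIsometryEquiv.apply_symm_apply]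
      rw [show y - (cen a b c - ρ p) - ρ p = y - cen a b c by abel]
      exact hy
  have touch : ∀ {a b c : E}, IsHorizontalEquilateral a b c s →
      (Metric.closedBall (cen a b c) (s / (2 * √3)) ∩ face b c).Nonempty := by
    intro a b c h
    refine ⟨(1 / 2 : ℝ) • b + (1 / 2 : ℝ) • c, ?_, ?_⟩
    · rw [mem_closedBall_iff_norm]
      have e : (1 / 2 : ℝ) • b + (1 / 2 : ℝ) • c - cen a b c = -(1 / 2 : ℝ) • (a - cen a b c) := by
        unfold cen
        module
      rw [e, norm_smul]
      have h1 := h.data.1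
      have hs := h.pos
      have h3 : √(3 : ℝ) ^ 2 = 3 := Real.sq_sqrt (by norm_num)
      have h4 : 0 < √(3 : ℝ) := by positivity
      have h5 : ‖a - cen a b c‖ = s / √3 := by
        rw [← sq_eq_sq₀ (norm_nonneg _) (by positivity), h1, div_pow, h3]
      rw [h5]
      norm_num
      apply le_of_eq
      field_simp
    · exact ⟨_, ⟨1 / 2, 1 / 2, by norm_num, by norm_num, by norm_num, rfl⟩, 0, by simp⟩
  refine ⟨cen a b c - ρ p, ?_, ?_, ?_, ?_⟩
  · rw [himg]
    intro x hx
    rw [mem_closedBall_iff_norm] at hx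
    exact ball_sub_prism h hx
  · rw [himg]
    have := touch h.rot.rot
    rwa [cen_rot b c a, cen_rot a b c] at this
  · rw [himg]
    exact touch h
  · rw [himg]
    have := touch h.rot
    rwa [cen_rot a b c] at this

/-- Let `a`, `b`, `c` be the vertices of an equilateral triangle with side `s > 0` in the plane
`z = 0`. A convex body `K` is a rotor in the infinite prism over this triangle if and only if it is a
ball with radius `s / (2 √3)`, the inradius of the triangle. -/
theorem result (a b c : E) (s : ℝ) (h : IsHorizontalEquilateral a b c s) (K : Set E)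
    (hK : IsConvexBody K) :
    IsRotor a b c K ↔ ∃ x : E, K = Metric.closedBall x (s / (2 * √3)) := by
  constructor
  · exact ball_of_rotor h hK
  · rintro ⟨x, rfl⟩
    exact rotor_of_ball h x

end Pool.Agent.Results.MP_c2e62a_gt.PrismRotor
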